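import Mathlib

/-!
Invariant means on abelian groups.
-/

namespace Pool.Agent.Helper17.TC

open Filter Topology

/-- bounded real function -/
def Bd {A : Type*} (f : A → ℝ) : Prop := ∃ C : ℝ, ∀ a, |f a| ≤ C

/-- a finitely additive invariant mean on bounded functions of an abelian group -/
structure InvMean (A : Type*) [AddCommGroup A] where
  M : (A → ℝ) → ℝ
  add : ∀ f g, Bd f → Bd g → M (fun a => f a + g a) = M f + M g
  smul : ∀ (c : ℝ) f, Bd f → M (fun a => c * f a) = c * M f
  mono : ∀ f g, Bd f → Bd g → (∀ a, f a ≤ g a) → M f ≤ M g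
  const : ∀ c : ℝ, M (fun _ => c) = c
  inv : ∀ f (h : A), Bd f → M (fun a => f (a + h)) = M f

section Cesaro

variable {A : Type*} [AddCommGroup A]

/-- iterated Cesàro means -/
noncomputable def cm (N : ℕ) : List A → (A → ℝ) → ℝ
  | [], f => f 0
  | g :: l, f => (∑ j ∈ Finset.range (N + 1), cm N l (fun a => f (a + j • g))) / ((N : ℝ) + 1)

theorem cm_add (N : ℕ) (l : List A) : ∀ f g : A → ℝ,
    cm N l (fun a => f a + g a) = cm N l f + cm N l g := by
  induction l with
  | nil => intro f g; simp [cm]
  | cons x l ih =>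
    intro f g
    simp only [cm]
    rw [← add_div]
    congr 1
    rw [← Finset.sum_add_distrib]
    refine Finset.sum_congr rfl fun j _ => ?_
    exact ih (fun a => f (a + j • x)) (fun a => g (a + j • x))

theorem cm_smul (N : ℕ) (l : List A) (c : ℝ) : ∀ f : A → ℝ,
    cm N l (fun a => c * f a) = c * cm N l f := by
  induction l with
  | nil => intro f; simp [cm]
  | cons x l ih =>
    intro f
    simp only [cm]
    rw [← mul_div_assoc, Finset.mul_sum]
    congr 1
    refine Finset.sum_congr rfl fun j _ => ?_
    exact ih (fun a => f (a + j • x))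

theorem cm_const (N : ℕ) (l : List A) (c : ℝ) :
    cm N l (fun _ => c) = c := by
  induction l with
  | nil => simp [cm]
  | cons x l ih =>
    simp only [cm, ih]
    rw [Finset.sum_const, Finset.card_range, nsmul_eq_mul]
    push_cast
    field_simp

theorem cm_mono (N : ℕ) (l : List A) : ∀ f g : A → ℝ, (∀ a, f a ≤ g a) →
    cm N l f ≤ cm N l g := by
  induction l with
  | nil => intro f g h; simpa [cm] using h 0
  | cons x l ih =>
    intro f g h
    simp only [cm]
    apply div_le_div_of_nonneg_right _ (by positivity)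
    exact Finset.sum_le_sum fun j _ => ih _ _ fun a => h _

theorem cm_abs_le (N : ℕ) (l : List A) (f : A → ℝ) (C : ℝ) (h : ∀ a, |f a| ≤ C) :
    |cm N l f| ≤ C := by
  rw [abs_le]
  constructor
  · have := cm_mono N l (fun _ => -C) f (fun a => (abs_le.1 (h a)).1)
    rwa [cm_const] at this
  · have := cm_mono N l f (fun _ => C) (fun a => (abs_le.1 (h a)).2)
    rwa [cm_const] at this

theorem cm_shift (N : ℕ) (l : List A) : ∀ (g : A) (_ : g ∈ l) (f : A → ℝ) (C : ℝ)
    (_ : ∀ a, |f a| ≤ C), |cm N l (fun a => f (a + g)) - cm N l f| ≤ 2 * C / ((N : ℝ) + 1) := by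
  induction l with
  | nil => intro g hg; simp at hg
  | cons x l ih =>
    intro g hg f C hC
    have hN : (0 : ℝ) < (N : ℝ) + 1 := by positivity
    rcases List.mem_cons.1 hg with rfl | hg
    · simp only [cm]
      rw [← sub_div, abs_div, abs_of_pos hN]
      apply div_le_div_of_nonneg_right _ hN.le
      have key : ∑ j ∈ Finset.range (N + 1), cm N l (fun a => f (a + j • g + g))
          - ∑ j ∈ Finset.range (N + 1), cm N l (fun a => f (a + j • g))
          = cm N l (fun a => f (a + (N + 1) • g)) - cm N l (fun a => f (a + 0 • g)) := by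
        rw [← Finset.sum_sub_distrib]
        rw [← Finset.sum_range_sub (fun j => cm N l (fun a => f (a + j • g))) (N + 1)]
        refine Finset.sum_congr rfl fun j _ => ?_
        congr 2
        funext a
        rw [succ_nsmul, ← add_assoc]
      rw [key]
      have h1 := cm_abs_le N l (fun a => f (a + (N + 1) • g)) C (fun a => hC _)
      have h2 := cm_abs_le N l (fun a => f (a + 0 • g)) C (fun a => hC _)
      calc |cm N l (fun a => f (a + (N + 1) • g)) - cm N l (fun a => f (a + 0 • g))|
          ≤ |cm N l (fun a => f (a + (N + 1) • g))| + |cm N l (fun a => f (a + 0 • g))| :=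
            abs_sub _ _
        _ ≤ 2 * C := by linarith
    · simp only [cm]
      rw [← sub_div, abs_div, abs_of_pos hN, ← Finset.sum_sub_distrib]
      rw [div_le_iff₀ hN]
      calc |∑ j ∈ Finset.range (N + 1), (cm N l (fun a => f (a + j • x + g))
              - cm N l (fun a => f (a + j • x)))|
          ≤ ∑ j ∈ Finset.range (N + 1), |cm N l (fun a => f (a + j • x + g))
              - cm N l (fun a => f (a + j • x))| := Finset.abs_sum_le_sum_abs _ _
        _ ≤ ∑ j ∈ Finset.range (N + 1), 2 * C / ((N : ℝ) + 1) := by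
            refine Finset.sum_le_sum fun j _ => ?_
            have := ih g hg (fun a => f (a + j • x)) C (fun a => hC _)
            have e : (fun a => f (a + j • x + g)) = (fun a => f (a + g + j • x)) := by
              funext a; congr 1; abel
            rw [e]
            exact this
        _ = 2 * C / ((N : ℝ) + 1) * ((N : ℝ) + 1) := by
            rw [Finset.sum_const, Finset.card_range, nsmul_eq_mul]
            push_cast
            ring

end Cesaro

section Lim

open Classical in
/-- ultrafilter on finite subsets times scale -/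
noncomputable def uf (A : Type*) : Ultrafilter (Finset A × ℕ) := Ultrafilter.of atTop

variable {A : Type*} [AddCommGroup A]

noncomputable def muf (f : A → ℝ) : ℝ :=
  limUnder (uf A : Filter (Finset A × ℕ)) (fun p => cm p.2 p.1.toList f)

theorem tendsto_muf (f : A → ℝ) (hf : Bd f) :
    Tendsto (fun p : Finset A × ℕ => cm p.2 p.1.toList f) (uf A : Filter (Finset A × ℕ))
      (𝓝 (muf f)) := by
  obtain ⟨C, hC⟩ := hf
  apply tendsto_nhds_limUnder
  have hK : IsCompact (Set.Icc (-C) C) := isCompact_Icc
  have hle : (↑((uf A).map (fun p : Finset A × ℕ => cm p.2 p.1.toList f)) : Filter ℝ)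
      ≤ 𝓟 (Set.Icc (-C) C) := by
    rw [Ultrafilter.coe_map, le_principal_iff, Filter.mem_map]
    refine Filter.univ_mem' fun p => ?_
    exact abs_le.1 (cm_abs_le _ _ _ C hC)
  obtain ⟨x, _, hx⟩ := hK.ultrafilter_le_nhds _ hle
  exact ⟨x, hx⟩

omit [AddCommGroup A] in
theorem bd_add {f g : A → ℝ} (hf : Bd f) (hg : Bd g) : Bd (fun a => f a + g a) := by
  obtain ⟨C, hC⟩ := hf
  obtain ⟨D, hD⟩ := hg
  exact ⟨C + D, fun a => (abs_add_le _ _).trans (add_le_add (hC a) (hD a))⟩

omit [AddCommGroup A] in
theorem bd_smul {f : A → ℝ} (c : ℝ) (hf : Bd f) : Bd (fun a => c * f a) := by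
  obtain ⟨C, hC⟩ := hf
  exact ⟨|c| * C, fun a => by rw [abs_mul]; exact mul_le_mul_of_nonneg_left (hC a) (abs_nonneg _)⟩

omit [AddCommGroup A] in
theorem bd_const (c : ℝ) : Bd (fun _ : A => c) := ⟨|c|, fun _ => le_rfl⟩

theorem bd_shift {f : A → ℝ} (h : A) (hf : Bd f) : Bd (fun a => f (a + h)) := by
  obtain ⟨C, hC⟩ := hf
  exact ⟨C, fun a => hC _⟩

omit [AddCommGroup A] in
theorem bd_sum {ι : Type*} (s : Finset ι) (f : ι → A → ℝ) (hf : ∀ i ∈ s, Bd (f i)) :
    Bd (fun a => ∑ i ∈ s, f i a) := by
  classical
  induction s using Finset.induction_on with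
  | empty => simpa using bd_const (A := A) 0
  | insert i s hi ih =>
    simp only [Finset.sum_insert hi]
    exact bd_add (hf i (Finset.mem_insert_self _ _))
      (ih fun j hj => hf j (Finset.mem_insert_of_mem hj))

open Classical in
theorem uf_le (A : Type*) : (uf A : Filter (Finset A × ℕ)) ≤ atTop := by
  unfold uf
  exact Ultrafilter.of_le _

open Classical in
/-- every abelian group has an invariant mean -/
noncomputable def invMean (A : Type*) [AddCommGroup A] : InvMean A where
  M := muf
  add := by
    intro f g hf hg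
    have h1 := tendsto_muf _ (bd_add hf hg)
    have h2 := (tendsto_muf f hf).add (tendsto_muf g hg)
    refine tendsto_nhds_unique h1 (h2.congr fun p => ?_)
    exact (cm_add _ _ _ _).symm
  smul := by
    intro c f hf
    have h1 := tendsto_muf _ (bd_smul c hf)
    have h2 := (tendsto_muf f hf).const_mul c
    refine tendsto_nhds_unique h1 (h2.congr fun p => ?_)
    exact (cm_smul _ _ _ _).symm
  mono := by
    intro f g hf hg h
    exact le_of_tendsto_of_tendsto' (tendsto_muf f hf) (tendsto_muf g hg)
      (fun p => cm_mono _ _ _ _ h)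
  const := by
    intro c
    have h1 := tendsto_muf (A := A) _ (bd_const c)
    refine tendsto_nhds_unique h1 ?_
    simp only [cm_const]
    exact tendsto_const_nhds
  inv := by
    intro f h hf
    have h1 := tendsto_muf _ (bd_shift h hf)
    have h2 := tendsto_muf f hf
    obtain ⟨C, hC⟩ := hf
    have h3 : Tendsto (fun p : Finset A × ℕ =>
        cm p.2 p.1.toList (fun a => f (a + h)) - cm p.2 p.1.toList f)
        (uf A : Filter (Finset A × ℕ)) (𝓝 0) := by
      have h4 : Tendsto (fun p : Finset A × ℕ => 2 * C / ((p.2 : ℝ) + 1))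
          (uf A : Filter (Finset A × ℕ)) (𝓝 0) := by
        have h5 : Tendsto (fun p : Finset A × ℕ => p.2) (uf A : Filter (Finset A × ℕ)) atTop := by
          refine Tendsto.mono_left ?_ (uf_le A)
          exact tendsto_snd.mono_left (by rw [← prod_atTop_atTop_eq])
        have h6 : Tendsto (fun n : ℕ => 2 * C / ((n : ℝ) + 1)) atTop (𝓝 0) := by
          apply Tendsto.div_atTop tendsto_const_nhds
          exact tendsto_atTop_add_const_right _ _ tendsto_natCast_atTop_atTop
        exact h6.comp h5
      apply squeeze_zero_norm' _ h4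
      have h7 : ∀ᶠ p : Finset A × ℕ in atTop, ({h}, 0) ≤ p := eventually_ge_atTop _
      filter_upwards [uf_le A h7] with p hp
      rw [Real.norm_eq_abs]
      refine cm_shift p.2 p.1.toList h ?_ f C hC
      rw [Finset.mem_toList]
      exact hp.1 (Finset.mem_singleton_self _)
    have h8 := h1.sub h2
    have := tendsto_nhds_unique h8 h3
    linarith

end Lim

end Pool.Agent.Helper17.TC
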