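import Mathlib
import Pool.Agent.Helper17.TC.Mean

/-!
The one level inequality for functions on an abelian group with values in a space with
midpoints satisfying the CN inequality.
-/

namespace Pool.Agent.Helper17.TC

/-- a midpoint map satisfying the CN inequality -/
structure CNMid (Y : Type*) [MetricSpace Y] where
  mid : Y → Y → Y
  cn : ∀ a b p, dist (mid a b) p ^ 2 ≤ (dist a p ^ 2 + dist b p ^ 2) / 2 - dist a b ^ 2 / 4

section Pointwise

variable {Y : Type*} [MetricSpace Y] (m : CNMid Y)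

theorem CNMid.left (a b : Y) : dist (m.mid a b) a ≤ dist a b := by
  have h := m.cn a b a
  rw [dist_self, dist_comm b a] at h
  have h1 : dist (m.mid a b) a ^ 2 ≤ dist a b ^ 2 := by nlinarith [sq_nonneg (dist a b)]
  exact (abs_le_of_sq_le_sq' h1 dist_nonneg).2

include m in
theorem CNMid.quad (x1 x2 x3 x4 : Y) :
    dist x1 x3 ^ 2 + dist x2 x4 ^ 2 ≤
      dist x1 x2 ^ 2 + dist x2 x3 ^ 2 + dist x3 x4 ^ 2 + dist x4 x1 ^ 2 := by
  have h2 := m.cn x1 x3 x2
  have h4 := m.cn x1 x3 x4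
  rw [dist_comm x3 x2] at h2
  rw [dist_comm x1 x4] at h4
  have ht : dist x2 x4 ≤ dist (m.mid x1 x3) x2 + dist (m.mid x1 x3) x4 := by
    have := dist_triangle x2 (m.mid x1 x3) x4
    rwa [dist_comm x2 (m.mid x1 x3)] at this
  have h0 : 0 ≤ dist x2 x4 := dist_nonneg
  have hsq : dist x2 x4 ^ 2 ≤ (dist (m.mid x1 x3) x2 + dist (m.mid x1 x3) x4) ^ 2 :=
    pow_le_pow_left₀ h0 ht 2
  nlinarith [sq_nonneg (dist (m.mid x1 x3) x2 - dist (m.mid x1 x3) x4)]

theorem CNMid.mm (a b a' b' : Y) :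
    dist (m.mid a b) (m.mid a' b') ^ 2 ≤ (dist a a' ^ 2 + dist b b' ^ 2) / 2 := by
  have h1 := m.cn a b (m.mid a' b')
  have h2 := m.cn a' b' a
  have h3 := m.cn a' b' b
  have h4 := m.quad a a' b' b
  rw [dist_comm (m.mid a' b') a, dist_comm a' a, dist_comm b' a] at h2
  rw [dist_comm (m.mid a' b') b, dist_comm a' b, dist_comm b' b] at h3
  rw [dist_comm b' b, dist_comm b a, dist_comm a' b] at h4
  nlinarith

end Pointwise

section Fun

variable {A : Type*} [AddCommGroup A] {Y : Type*} [MetricSpace Y]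

/-- bounded distance -/
def Near (w w' : A → Y) : Prop := ∃ C : ℝ, ∀ a, dist (w a) (w' a) ≤ C

omit [AddCommGroup A] in
theorem Near.symm {w w' : A → Y} (h : Near w w') : Near w' w := by
  obtain ⟨C, hC⟩ := h
  exact ⟨C, fun a => by rw [dist_comm]; exact hC a⟩

omit [AddCommGroup A] in
theorem Near.trans {w w' w'' : A → Y} (h : Near w w') (h' : Near w' w'') : Near w w'' := by
  obtain ⟨C, hC⟩ := h
  obtain ⟨D, hD⟩ := h'
  exact ⟨C + D, fun a => (dist_triangle _ _ _).trans (add_le_add (hC a) (hD a))⟩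

omit [AddCommGroup A] in
theorem Near.bd {w w' : A → Y} (h : Near w w') : Bd (fun a => dist (w a) (w' a) ^ 2) := by
  obtain ⟨C, hC⟩ := h
  refine ⟨C ^ 2, fun a => ?_⟩
  rw [abs_of_nonneg (sq_nonneg _)]
  exact pow_le_pow_left₀ dist_nonneg (hC a) 2

/-- shift -/
def sh (h : A) (w : A → Y) : A → Y := fun a => w (a + h)

theorem Near.sh {w w' : A → Y} (h : Near w w') (g : A) : Near (sh g w) (sh g w') := by
  obtain ⟨C, hC⟩ := h
  exact ⟨C, fun a => hC _⟩

omit [MetricSpace Y] in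
theorem sh_zero (w : A → Y) : sh 0 w = w := by
  funext a; simp [sh]

omit [MetricSpace Y] in
theorem sh_sh (g h : A) (w : A → Y) : sh g (sh h w) = sh (g + h) w := by
  funext a; simp [sh, add_assoc]

variable (μ : InvMean A)

/-- mean squared distance -/
noncomputable def D2 (w w' : A → Y) : ℝ := μ.M (fun a => dist (w a) (w' a) ^ 2)

theorem D2_comm (w w' : A → Y) : D2 μ w w' = D2 μ w' w := by
  simp [D2, dist_comm]

theorem D2_sh {w w' : A → Y} (hw : Near w w') (h : A) :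
    D2 μ (sh h w) (sh h w') = D2 μ w w' := by
  exact μ.inv (fun a => dist (w a) (w' a) ^ 2) h hw.bd

theorem D2_nonneg {w w' : A → Y} (hw : Near w w') : 0 ≤ D2 μ w w' := by
  have := μ.mono (fun _ => 0) (fun a => dist (w a) (w' a) ^ 2) (bd_const 0) hw.bd
    (fun a => sq_nonneg _)
  rwa [μ.const] at this

theorem D2_cn (m : CNMid Y) {w w' v : A → Y} (h1 : Near w w') (h2 : Near w v) :
    D2 μ (fun a => m.mid (w a) (w' a)) v ≤ (D2 μ w v + D2 μ w' v) / 2 - D2 μ w w' / 4 := by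
  have h3 : Near w' v := h1.symm.trans h2
  have h4 : Near (fun a => m.mid (w a) (w' a)) v := by
    refine Near.trans (w' := w) ?_ h2
    obtain ⟨C, hC⟩ := h1
    exact ⟨C, fun a => (m.left _ _).trans (hC a)⟩
  have e1 := μ.smul (1 / 2) _ h2.bd
  have e2 := μ.smul (1 / 2) _ h3.bd
  have e3 := μ.smul (-1 / 4) _ h1.bd
  have e4 := μ.add _ _ (bd_smul (1 / 2) h2.bd) (bd_smul (1 / 2) h3.bd)
  have e5 := μ.add _ _ (bd_add (bd_smul (1 / 2) h2.bd) (bd_smul (1 / 2) h3.bd))
    (bd_smul (-1 / 4) h1.bd)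
  have e6 := μ.mono _ _ h4.bd (bd_add (bd_add (bd_smul (1 / 2) h2.bd) (bd_smul (1 / 2) h3.bd))
    (bd_smul (-1 / 4) h1.bd)) (fun a => by
      have := m.cn (w a) (w' a) (v a)
      linarith)
  rw [e5, e4, e1, e2, e3] at e6
  unfold D2
  linarith

theorem D2_mm (m : CNMid Y) {w w' v v' : A → Y} (h1 : Near w w') (h2 : Near v v')
    (h3 : Near w v) :
    D2 μ (fun a => m.mid (w a) (w' a)) (fun a => m.mid (v a) (v' a))
      ≤ (D2 μ w v + D2 μ w' v') / 2 := by
  have h4 : Near w' v' := (h1.symm.trans h3).trans h2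
  have h5 : Near (fun a => m.mid (w a) (w' a)) w := by
    obtain ⟨C, hC⟩ := h1
    exact ⟨C, fun a => (m.left _ _).trans (hC a)⟩
  have h6 : Near (fun a => m.mid (v a) (v' a)) v := by
    obtain ⟨C, hC⟩ := h2
    exact ⟨C, fun a => (m.left _ _).trans (hC a)⟩
  have h7 := (h5.trans h3).trans h6.symm
  have e1 := μ.smul (1 / 2) _ h3.bd
  have e2 := μ.smul (1 / 2) _ h4.bd
  have e4 := μ.add _ _ (bd_smul (1 / 2) h3.bd) (bd_smul (1 / 2) h4.bd)
  have e6 := μ.mono _ _ h7.bd (bd_add (bd_smul (1 / 2) h3.bd) (bd_smul (1 / 2) h4.bd))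
    (fun a => by
      have := m.mm (w a) (w' a) (v a) (v' a)
      linarith)
  rw [e4, e1, e2] at e6
  unfold D2
  linarith

/-- iterated midpoints -/
def wseq (m : CNMid Y) (g : ℕ → A) (u : A → Y) : ℕ → A → Y
  | 0 => u
  | j + 1 => fun a => m.mid (wseq m g u j a) (wseq m g u j (a + g j))

/-- functions at bounded distance from `u`, where `u` has bounded displacement -/
def Disp (u : A → Y) : Prop := ∀ h : A, Near (sh h u) u

theorem near_sh {u w : A → Y} (hu : Disp u) (hw : Near w u) (h : A) : Near (sh h w) u :=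
  (hw.sh h).trans (hu h)

theorem wseq_near (m : CNMid Y) (g : ℕ → A) {u w : A → Y} (hu : Disp u) (hw : Near w u)
    (j : ℕ) : Near (wseq m g w j) u := by
  induction j with
  | zero => exact hw
  | succ j ih =>
    have h1 : Near (wseq m g w j) (sh (g j) (wseq m g w j)) :=
      ih.trans (near_sh hu ih (g j)).symm
    obtain ⟨C, hC⟩ := h1
    refine Near.trans (w' := wseq m g w j) ⟨C, fun a => ?_⟩ ih
    exact (m.left _ _).trans (hC a)

theorem wseq_ineq (m : CNMid Y) (g : ℕ → A) {u w : A → Y} (hu : Disp u) (hw : Near w u)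
    (n : ℕ) : ∀ v : A → Y, Near v u →
    D2 μ (wseq m g w n) v
      + (∑ j ∈ Finset.range n, D2 μ (wseq m g w j) (sh (g j) (wseq m g w j))) / 4
      ≤ (∑ B ∈ (Finset.range n).powerset, D2 μ (sh (∑ k ∈ B, g k) w) v) / 2 ^ n := by
  induction n with
  | zero =>
    intro v hv
    simp [wseq, sh_zero]
  | succ n ih =>
    intro v hv
    have hwn := wseq_near m g hu hw n
    have h1 : Near (wseq m g w n) (sh (g n) (wseq m g w n)) :=
      hwn.trans (near_sh hu hwn (g n)).symm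
    have h2 : Near (wseq m g w n) v := hwn.trans hv.symm
    have e1 := D2_cn μ m h1 h2
    have e2 := ih v hv
    have e3 := ih (sh (-(g n)) v) (near_sh hu hv _)
    have e4 : D2 μ (sh (g n) (wseq m g w n)) v = D2 μ (wseq m g w n) (sh (-(g n)) v) := by
      have h3 : Near (wseq m g w n) (sh (-(g n)) v) := hwn.trans (near_sh hu hv _).symm
      rw [← D2_sh μ h3 (g n), sh_sh, add_neg_cancel, sh_zero]
    have e5 : ∀ B : Finset ℕ, n ∉ B → D2 μ (sh (∑ k ∈ insert n B, g k) w) v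
        = D2 μ (sh (∑ k ∈ B, g k) w) (sh (-(g n)) v) := by
      intro B hB
      have h3 : Near (sh (∑ k ∈ B, g k) w) (sh (-(g n)) v) :=
        (near_sh hu hw _).trans (near_sh hu hv _).symm
      rw [← D2_sh μ h3 (g n), sh_sh, sh_sh, add_neg_cancel, sh_zero, Finset.sum_insert hB]
    rw [Finset.sum_range_succ]
    rw [Finset.range_add_one, Finset.sum_powerset_insert Finset.notMem_range_self]
    have e6 : ∑ B ∈ (Finset.range n).powerset, D2 μ (sh (∑ k ∈ insert n B, g k) w) v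
        = ∑ B ∈ (Finset.range n).powerset, D2 μ (sh (∑ k ∈ B, g k) w) (sh (-(g n)) v) := by
      refine Finset.sum_congr rfl fun B hB => ?_
      apply e5
      intro hn
      exact Finset.notMem_range_self (Finset.mem_powerset.1 hB hn)
    rw [e6]
    have e7 : D2 μ (wseq m g w (n + 1)) v
        ≤ (D2 μ (wseq m g w n) v + D2 μ (sh (g n) (wseq m g w n)) v) / 2
          - D2 μ (wseq m g w n) (sh (g n) (wseq m g w n)) / 4 := e1
    rw [e4] at e7
    rw [pow_succ]
    have e8 : (∑ B ∈ (Finset.range n).powerset, D2 μ (sh (∑ k ∈ B, g k) w) v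
        + ∑ B ∈ (Finset.range n).powerset, D2 μ (sh (∑ k ∈ B, g k) w) (sh (-(g n)) v))
          / (2 ^ n * 2)
        = ((∑ B ∈ (Finset.range n).powerset, D2 μ (sh (∑ k ∈ B, g k) w) v) / 2 ^ n
          + (∑ B ∈ (Finset.range n).powerset, D2 μ (sh (∑ k ∈ B, g k) w) (sh (-(g n)) v))
            / 2 ^ n) / 2 := by
      field_simp
    rw [e8]
    linarith

theorem wseq_disp_succ (m : CNMid Y) (g : ℕ → A) {u w : A → Y} (hu : Disp u) (hw : Near w u)
    (h : A) (j : ℕ) :
    D2 μ (sh h (wseq m g w (j + 1))) (wseq m g w (j + 1))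
      ≤ D2 μ (sh h (wseq m g w j)) (wseq m g w j) := by
  have hwj := wseq_near m g hu hw j
  have n1 : Near (sh h (wseq m g w j)) (sh h (sh (g j) (wseq m g w j))) :=
    (near_sh hu hwj h).trans (near_sh hu (near_sh hu hwj (g j)) h).symm
  have n2 : Near (wseq m g w j) (sh (g j) (wseq m g w j)) :=
    hwj.trans (near_sh hu hwj (g j)).symm
  have n3 : Near (sh h (wseq m g w j)) (wseq m g w j) := (near_sh hu hwj h).trans hwj.symm
  have e1 := D2_mm μ m n1 n2 n3
  have e2 : D2 μ (sh h (sh (g j) (wseq m g w j))) (sh (g j) (wseq m g w j))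
      = D2 μ (sh h (wseq m g w j)) (wseq m g w j) := by
    rw [sh_sh, add_comm, ← sh_sh]
    exact D2_sh μ n3 (g j)
  rw [e2] at e1
  have e3 : D2 μ (sh h (wseq m g w (j + 1))) (wseq m g w (j + 1))
      = D2 μ (fun a => m.mid (sh h (wseq m g w j) a) (sh h (sh (g j) (wseq m g w j)) a))
        (fun a => m.mid (wseq m g w j a) (sh (g j) (wseq m g w j) a)) := rfl
  rw [e3]
  linarith

theorem wseq_disp (m : CNMid Y) (g : ℕ → A) {u w : A → Y} (hu : Disp u) (hw : Near w u)
    (h : A) {j n : ℕ} (hjn : j ≤ n) :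
    D2 μ (sh h (wseq m g w n)) (wseq m g w n)
      ≤ D2 μ (sh h (wseq m g w j)) (wseq m g w j) := by
  induction n, hjn using Nat.le_induction with
  | base => exact le_rfl
  | succ n _ ih => exact (wseq_disp_succ μ m g hu hw h n).trans ih

theorem M_sum {ι : Type*} (s : Finset ι) (f : ι → A → ℝ) (hf : ∀ i ∈ s, Bd (f i)) :
    μ.M (fun a => ∑ i ∈ s, f i a) = ∑ i ∈ s, μ.M (f i) := by
  classical
  induction s using Finset.induction_on with
  | empty => simpa using μ.const 0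
  | insert i s hi ih =>
    simp only [Finset.sum_insert hi]
    rw [μ.add _ _ (hf i (Finset.mem_insert_self _ _))
      (bd_sum s f fun j hj => hf j (Finset.mem_insert_of_mem hj)),
      ih fun j hj => hf j (Finset.mem_insert_of_mem hj)]

/-- going `M` steps -/
theorem D2_steps {u w : A → Y} (hu : Disp u) (hw : Near w u) (g : A) (M : ℕ) :
    D2 μ (sh (M • g) u) u ≤ 8 * D2 μ w u + 2 * (M : ℝ) ^ 2 * D2 μ (sh g w) w := by
  have n0 : Near u u := ⟨0, fun a => by simp⟩
  have n1 : Near (sh (M • g) u) (sh (M • g) w) := (hu _).trans (near_sh hu hw _).symm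
  have n3 : Near (sh g w) w := (near_sh hu hw g).trans hw.symm
  have b1 := n1.bd
  have b2 := hw.bd
  have b3 : ∀ i ∈ Finset.range M, Bd (fun a : A => dist (w (a + i • g + g)) (w (a + i • g)) ^ 2) := by
    intro i _
    exact bd_shift (i • g) n3.bd
  have b4 := bd_sum _ _ b3
  have b5 : Bd (fun a : A => (4 : ℝ) * dist (sh (M • g) u a) (sh (M • g) w a) ^ 2
      + 4 * dist (w a) (u a) ^ 2) := bd_add (bd_smul 4 b1) (bd_smul 4 b2)
  have b6 := bd_smul (2 * (M : ℝ)) b4
  have key : ∀ a : A, dist (sh (M • g) u a) (u a) ^ 2 ≤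
      (4 * dist (sh (M • g) u a) (sh (M • g) w a) ^ 2 + 4 * dist (w a) (u a) ^ 2)
      + 2 * (M : ℝ) * ∑ i ∈ Finset.range M, dist (w (a + i • g + g)) (w (a + i • g)) ^ 2 := by
    intro a
    have t1 : dist (sh (M • g) u a) (u a) ≤ dist (sh (M • g) u a) (sh (M • g) w a)
        + dist (sh (M • g) w a) (w a) + dist (w a) (u a) := dist_triangle4 _ _ _ _
    have t2 : dist (sh (M • g) w a) (w a)
        ≤ ∑ i ∈ Finset.range M, dist (w (a + i • g + g)) (w (a + i • g)) := by
      have := dist_le_range_sum_dist (fun i => w (a + i • g)) M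
      simp only [zero_smul, add_zero] at this
      rw [dist_comm]
      refine this.trans (le_of_eq ?_)
      refine Finset.sum_congr rfl fun i _ => ?_
      rw [dist_comm, succ_nsmul, add_assoc]
    have t3 : (∑ i ∈ Finset.range M, dist (w (a + i • g + g)) (w (a + i • g))) ^ 2
        ≤ (M : ℝ) * ∑ i ∈ Finset.range M, dist (w (a + i • g + g)) (w (a + i • g)) ^ 2 := by
      have := sq_sum_le_card_mul_sum_sq (s := Finset.range M)
        (f := fun i => dist (w (a + i • g + g)) (w (a + i • g)))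
      rwa [Finset.card_range] at this
    have p1 : 0 ≤ dist (sh (M • g) u a) (sh (M • g) w a) := dist_nonneg
    have p2 : 0 ≤ dist (sh (M • g) w a) (w a) := dist_nonneg
    have p3 : 0 ≤ dist (w a) (u a) := dist_nonneg
    have p4 : 0 ≤ dist (sh (M • g) u a) (u a) := dist_nonneg
    have t4 : dist (sh (M • g) w a) (w a) ^ 2 ≤
        (M : ℝ) * ∑ i ∈ Finset.range M, dist (w (a + i • g + g)) (w (a + i • g)) ^ 2 :=
      (pow_le_pow_left₀ p2 t2 2).trans t3
    have t5 : dist (sh (M • g) u a) (u a) ^ 2 ≤ (dist (sh (M • g) u a) (sh (M • g) w a)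
        + dist (sh (M • g) w a) (w a) + dist (w a) (u a)) ^ 2 := pow_le_pow_left₀ p4 t1 2
    nlinarith [sq_nonneg (dist (sh (M • g) u a) (sh (M • g) w a) - dist (w a) (u a)),
      sq_nonneg (dist (sh (M • g) u a) (sh (M • g) w a) + dist (w a) (u a)
        - dist (sh (M • g) w a) (w a))]
  have e1 := μ.mono _ _ ((hu (M • g)).bd) (bd_add b5 b6) key
  rw [μ.add _ _ b5 b6, μ.add _ _ (bd_smul 4 b1) (bd_smul 4 b2), μ.smul 4 _ b1, μ.smul 4 _ b2,
    μ.smul _ _ b4, M_sum μ _ _ b3] at e1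
  have e2 : ∀ i ∈ Finset.range M, μ.M (fun a : A => dist (w (a + i • g + g)) (w (a + i • g)) ^ 2)
      = D2 μ (sh g w) w := fun i _ => μ.inv _ (i • g) n3.bd
  rw [Finset.sum_congr rfl e2, Finset.sum_const, Finset.card_range, nsmul_eq_mul] at e1
  have e3 : μ.M (fun a => dist (sh (M • g) u a) (sh (M • g) w a) ^ 2) = D2 μ w u := by
    rw [D2_comm]
    exact D2_sh μ hw.symm (M • g)
  rw [e3] at e1
  have e4 : μ.M (fun a => dist (w a) (u a) ^ 2) = D2 μ w u := rfl
  rw [e4] at e1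
  unfold D2 at e1 ⊢
  nlinarith

/-- **one level inequality** -/
theorem one_level (m : CNMid Y) (g : ℕ → A) (s0 : A) {u : A → Y} (hu : Disp u)
    (n M : ℕ) (hn : 0 < n) (hM : M ^ 2 ≤ n) :
    (∑ k ∈ Finset.range n, D2 μ (sh (M • g k) u) u) / n
      ≤ 16 * ((∑ B ∈ (Finset.range n).powerset, D2 μ (sh (s0 + ∑ k ∈ B, g k) u) u) / 2 ^ n) := by
  set F := (∑ B ∈ (Finset.range n).powerset, D2 μ (sh (s0 + ∑ k ∈ B, g k) u) u) / 2 ^ n with hF
  have n0 : Near u u := ⟨0, fun a => by simp⟩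
  have hw : Near (sh s0 u) u := hu s0
  have e1 := wseq_ineq μ m g hu hw n u n0
  have e1' : (∑ B ∈ (Finset.range n).powerset, D2 μ (sh (∑ k ∈ B, g k) (sh s0 u)) u) / 2 ^ n
      = F := by
    rw [hF]
    congr 1
    refine Finset.sum_congr rfl fun B _ => ?_
    rw [sh_sh, add_comm]
  rw [e1'] at e1
  set w := wseq m g (sh s0 u) n with hwdef
  have hwn : Near w u := wseq_near m g hu hw n
  have e2 : ∑ j ∈ Finset.range n, D2 μ (sh (g j) w) w
      ≤ ∑ j ∈ Finset.range n, D2 μ (wseq m g (sh s0 u) j) (sh (g j) (wseq m g (sh s0 u) j)) := by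
    refine Finset.sum_le_sum fun j hj => ?_
    rw [D2_comm μ (wseq m g (sh s0 u) j)]
    exact wseq_disp μ m g hu hw (g j) (Finset.mem_range.1 hj).le
  have e3 : 0 ≤ D2 μ w u := D2_nonneg μ hwn
  have e4 : 0 ≤ ∑ j ∈ Finset.range n, D2 μ (sh (g j) w) w :=
    Finset.sum_nonneg fun j _ => D2_nonneg μ ((near_sh hu hwn _).trans hwn.symm)
  have e5 : ∑ k ∈ Finset.range n, D2 μ (sh (M • g k) u) u
      ≤ ∑ k ∈ Finset.range n, (8 * D2 μ w u + 2 * (M : ℝ) ^ 2 * D2 μ (sh (g k) w) w) :=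
    Finset.sum_le_sum fun k _ => D2_steps μ hu hwn (g k) M
  rw [Finset.sum_add_distrib, Finset.sum_const, Finset.card_range, nsmul_eq_mul,
    ← Finset.mul_sum] at e5
  have hn' : (0 : ℝ) < n := by exact_mod_cast hn
  have hM' : (M : ℝ) ^ 2 ≤ n := by exact_mod_cast hM
  have hFn : 0 ≤ F := by linarith
  rw [div_le_iff₀ hn']
  have e6 : (M : ℝ) ^ 2 * ∑ j ∈ Finset.range n, D2 μ (sh (g j) w) w ≤ n * (4 * F) := by
    have : ∑ j ∈ Finset.range n, D2 μ (sh (g j) w) w ≤ 4 * F := by linarith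
    exact mul_le_mul hM' this e4 hn'.le
  have e7 : (n : ℝ) * (8 * D2 μ w u) ≤ n * (8 * F) := by
    apply mul_le_mul_of_nonneg_left _ hn'.le
    linarith
  nlinarith

end Fun

end Pool.Agent.Helper17.TC
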