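import Mathlib
import Pool.Agent.Helper17.TC.Level

/-!
CAT(0) spaces (definition by comparison triangles) have midpoints with the CN inequality.
-/

namespace Pool.Agent.Helper17.TC

/-- `γ` is a geodesic from `x` to `y`, parametrised by arc length -/
def IsGeod {Y : Type*} [MetricSpace Y] (γ : ℝ → Y) (x y : Y) : Prop :=
  γ 0 = x ∧ γ (dist x y) = y ∧
    ∀ s ∈ Set.Icc 0 (dist x y), ∀ t ∈ Set.Icc 0 (dist x y), dist (γ s) (γ t) = |s - t|

/-- CAT(0) space: a geodesic metric space in which, for every geodesic triangle with a vertex `x`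
and sides `α` (from `x` to `y`) and `β` (from `x` to `z`), and every comparison triangle
`x'`, `y'`, `z'` in the Euclidean plane, two points on the two sides are at most as far apart as
their comparison points -/
def IsCAT0 (Y : Type*) [MetricSpace Y] : Prop :=
  (∀ x y : Y, ∃ γ : ℝ → Y, IsGeod γ x y) ∧
  ∀ (x y z : Y) (α β : ℝ → Y), IsGeod α x y → IsGeod β x z →
    ∀ x' y' z' : ℂ, dist x' y' = dist x y → dist y' z' = dist y z → dist x' z' = dist x z →
      ∀ s ∈ Set.Icc (0 : ℝ) 1, ∀ t ∈ Set.Icc (0 : ℝ) 1,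
        dist (α (s * dist x y)) (β (t * dist x z))
          ≤ dist (x' + s * (y' - x')) (x' + t * (z' - x'))

theorem exists_triangle {a b c : ℝ} (ha : 0 < a) (hb : 0 ≤ b) (hc : 0 ≤ c)
    (h1 : a ≤ b + c) (h2 : b ≤ a + c) (h3 : c ≤ a + b) :
    ∃ z : ℂ, dist (0 : ℂ) (a : ℂ) = a ∧ dist (a : ℂ) z = c ∧ dist (0 : ℂ) z = b := by
  set u : ℝ := (a ^ 2 + b ^ 2 - c ^ 2) / (2 * a) with hu
  have hua : 2 * a * u = a ^ 2 + b ^ 2 - c ^ 2 := by
    rw [hu]; field_simp
  have hv : 0 ≤ b ^ 2 - u ^ 2 := by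
    have h4 : 0 ≤ (2 * a * b) ^ 2 - (2 * a * u) ^ 2 := by
      rw [hua]
      have e : (2 * a * b) ^ 2 - (a ^ 2 + b ^ 2 - c ^ 2) ^ 2
          = ((a + b + c) * (a + b - c)) * ((c + a - b) * (c - a + b)) := by ring
      rw [e]
      apply mul_nonneg
      · apply mul_nonneg <;> linarith
      · apply mul_nonneg <;> linarith
    have h5 : (2 * a * b) ^ 2 - (2 * a * u) ^ 2 = (2 * a) ^ 2 * (b ^ 2 - u ^ 2) := by ring
    rw [h5] at h4
    exact nonneg_of_mul_nonneg_right h4 (by positivity)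
  set v : ℝ := Real.sqrt (b ^ 2 - u ^ 2) with hvdef
  have hv2 : v ^ 2 = b ^ 2 - u ^ 2 := Real.sq_sqrt hv
  refine ⟨⟨u, v⟩, ?_, ?_, ?_⟩
  · rw [Complex.dist_eq, zero_sub, norm_neg, Complex.norm_real, Real.norm_eq_abs, abs_of_pos ha]
  · have h6 : dist (a : ℂ) (⟨u, v⟩ : ℂ) ^ 2 = c ^ 2 := by
      rw [Complex.dist_eq, Complex.sq_norm, Complex.normSq_apply]
      simp only [Complex.sub_re, Complex.sub_im, Complex.ofReal_re, Complex.ofReal_im]
      nlinarith
    exact (pow_left_inj₀ dist_nonneg hc two_ne_zero).1 h6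
  · have h6 : dist (0 : ℂ) (⟨u, v⟩ : ℂ) ^ 2 = b ^ 2 := by
      rw [Complex.dist_eq, Complex.sq_norm, Complex.normSq_apply]
      simp only [Complex.sub_re, Complex.sub_im, Complex.zero_re, Complex.zero_im]
      nlinarith
    exact (pow_left_inj₀ dist_nonneg hb two_ne_zero).1 h6

theorem mid_plane (x' y' z' : ℂ) :
    dist (x' + ((1 / 2 : ℝ) : ℂ) * (y' - x')) (x' + ((1 : ℝ) : ℂ) * (z' - x')) ^ 2
      = (dist x' z' ^ 2 + dist y' z' ^ 2) / 2 - dist x' y' ^ 2 / 4 := by
  simp only [Complex.dist_eq, Complex.sq_norm, Complex.normSq_apply]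
  simp only [Complex.sub_re, Complex.sub_im, Complex.add_re, Complex.add_im, Complex.mul_re,
    Complex.mul_im, Complex.ofReal_re, Complex.ofReal_im]
  ring

/-- CAT(0) spaces have a CN midpoint map -/
theorem exists_cnMid {Y : Type*} [MetricSpace Y] (h : IsCAT0 Y) : Nonempty (CNMid Y) := by
  obtain ⟨hg, hc⟩ := h
  choose γ hγ using hg
  refine ⟨⟨fun x y => γ x y (dist x y / 2), fun x y p => ?_⟩⟩
  rcases eq_or_ne x y with rfl | hxy
  · have h0 : γ x x (dist x x / 2) = x := by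
      rw [dist_self, zero_div]
      exact (hγ x x).1
    rw [h0, dist_self]
    have : (dist x p ^ 2 + dist x p ^ 2) / 2 - (0 : ℝ) ^ 2 / 4 = dist x p ^ 2 := by ring
    rw [this]
  · have ha : 0 < dist x y := dist_pos.2 hxy
    obtain ⟨z', e1, e2, e3⟩ := exists_triangle (a := dist x y) (b := dist x p) (c := dist y p) ha
      dist_nonneg dist_nonneg
      (by have := dist_triangle x p y; rw [dist_comm p y] at this; exact this)
      (dist_triangle x y p)
      (by have := dist_triangle y x p; rw [dist_comm y x] at this; exact this)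
    have h1 := hc x y p (γ x y) (γ x p) (hγ x y) (hγ x p) 0 (dist x y : ℂ) z' e1 e2 e3
      (1 / 2) ⟨by norm_num, by norm_num⟩ 1 ⟨by norm_num, le_rfl⟩
    have h2 := mid_plane 0 (dist x y : ℂ) z'
    rw [e1, e2, e3] at h2
    rw [one_mul, (hγ x p).2.1] at h1
    have h3 : (1 / 2 : ℝ) * dist x y = dist x y / 2 := by ring
    rw [h3] at h1
    calc dist (γ x y (dist x y / 2)) p ^ 2
        ≤ dist ((0 : ℂ) + ((1 / 2 : ℝ) : ℂ) * ((dist x y : ℂ) - 0))
            (0 + ((1 : ℝ) : ℂ) * (z' - 0)) ^ 2 := pow_le_pow_left₀ dist_nonneg h1 2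
      _ = _ := h2

end Pool.Agent.Helper17.TC
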