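import Mathlib

/-!
Word length.
-/

namespace Pool.Agent.Helper17.TC

/-- word length of `g` with respect to the generating set `S` -/
noncomputable def wordNorm {G : Type*} [Group G] (S : Finset G) (g : G) : ℕ :=
  sInf {n : ℕ | ∃ l : List G, l.length = n ∧ (∀ x ∈ l, x ∈ S ∨ x⁻¹ ∈ S) ∧ l.prod = g}

/-- `g` is a product of at most `N` generators and inverses -/
def Wd {G : Type*} [Group G] (S : Finset G) (N : ℕ) (g : G) : Prop :=
  ∃ l : List G, l.length ≤ N ∧ (∀ x ∈ l, x ∈ S ∨ x⁻¹ ∈ S) ∧ l.prod = g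

variable {G : Type*} [Group G] {S : Finset G}

theorem Wd.mono {N M : ℕ} {g : G} (h : Wd S N g) (hNM : N ≤ M) : Wd S M g := by
  obtain ⟨l, h1, h2, h3⟩ := h
  exact ⟨l, h1.trans hNM, h2, h3⟩

theorem Wd.one : Wd S 0 (1 : G) := ⟨[], by simp, by simp, by simp⟩

theorem Wd.gen {g : G} (h : g ∈ S) : Wd S 1 g := ⟨[g], by simp, by simp [h], by simp⟩

theorem Wd.mul {N M : ℕ} {g h : G} (hg : Wd S N g) (hh : Wd S M h) : Wd S (N + M) (g * h) := by
  obtain ⟨l, h1, h2, h3⟩ := hg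
  obtain ⟨l', h1', h2', h3'⟩ := hh
  refine ⟨l ++ l', by simp only [List.length_append]; omega, ?_, by simp [h3, h3']⟩
  intro x hx
  rcases List.mem_append.1 hx with hx | hx
  · exact h2 x hx
  · exact h2' x hx

theorem Wd.inv {N : ℕ} {g : G} (hg : Wd S N g) : Wd S N g⁻¹ := by
  obtain ⟨l, h1, h2, h3⟩ := hg
  refine ⟨(l.map (fun x => x⁻¹)).reverse, by simpa using h1, ?_, ?_⟩
  · intro x hx
    simp only [List.mem_reverse, List.mem_map] at hx
    obtain ⟨y, hy, rfl⟩ := hx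
    rw [inv_inv]
    exact (h2 y hy).symm
  · rw [← h3, List.prod_inv_reverse]

theorem Wd.conj {N M : ℕ} {g h : G} (hg : Wd S N g) (hh : Wd S M h) :
    Wd S (2 * N + M) (g * h * g⁻¹) := by
  have := (hg.mul hh).mul hg.inv
  exact this.mono (by omega)

theorem Wd.norm_le {N : ℕ} {g : G} (h : Wd S N g) : wordNorm S g ≤ N := by
  obtain ⟨l, h1, h2, h3⟩ := h
  have h4 : wordNorm S g ≤ l.length := Nat.sInf_le ⟨l, rfl, h2, h3⟩
  exact h4.trans h1

theorem exists_word (hS : Subgroup.closure (S : Set G) = ⊤) (g : G) :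
    ∃ l : List G, (∀ x ∈ l, x ∈ S ∨ x⁻¹ ∈ S) ∧ l.prod = g := by
  have hg : g ∈ Subgroup.closure (S : Set G) := by rw [hS]; trivial
  induction hg using Subgroup.closure_induction with
  | mem x hx => exact ⟨[x], by simpa using Or.inl hx, by simp⟩
  | one => exact ⟨[], by simp, by simp⟩
  | mul x y _ _ hx hy =>
    obtain ⟨l, h2, h3⟩ := hx
    obtain ⟨l', h2', h3'⟩ := hy
    refine ⟨l ++ l', ?_, by simp [h3, h3']⟩
    intro x hx
    rcases List.mem_append.1 hx with hx | hx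
    · exact h2 x hx
    · exact h2' x hx
  | inv x _ hx =>
    obtain ⟨l, h2, h3⟩ := hx
    have h : Wd S l.length x := ⟨l, le_rfl, h2, h3⟩
    obtain ⟨l', _, h2', h3'⟩ := h.inv
    exact ⟨l', h2', h3'⟩

theorem le_wordNorm (hS : Subgroup.closure (S : Set G) = ⊤) (g : G) (R : ℕ)
    (h : ∀ l : List G, (∀ x ∈ l, x ∈ S ∨ x⁻¹ ∈ S) → l.prod = g → R ≤ l.length) :
    R ≤ wordNorm S g := by
  unfold wordNorm
  apply le_csInf
  · obtain ⟨l, h2, h3⟩ := exists_word hS g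
    exact ⟨l.length, l, rfl, h2, h3⟩
  · rintro n ⟨l, rfl, h2, h3⟩
    exact h l h2 h3

end Pool.Agent.Helper17.TC
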