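import Mathlib
import Pool.Agent.Helper17.TC.Level

/-!
The iteration of the one level inequality over multi-affine families (rank one tensors).
-/

namespace Pool.Agent.Helper17.TC

/-- average over lists of length `K` of subsets of `range n` -/
noncomputable def avg (n : ℕ) : ℕ → (List (Finset ℕ) → ℝ) → ℝ
  | 0, F => F []
  | K + 1, F => (∑ B ∈ (Finset.range n).powerset, avg n K (fun L => F (B :: L))) / 2 ^ n

theorem avg_mono (n K : ℕ) : ∀ F G : List (Finset ℕ) → ℝ,
    (∀ L, L.length = K → F L ≤ G L) → avg n K F ≤ avg n K G := by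
  induction K with
  | zero => intro F G h; exact h [] rfl
  | succ K ih =>
    intro F G h
    simp only [avg]
    apply div_le_div_of_nonneg_right _ (by positivity)
    exact Finset.sum_le_sum fun B _ => ih _ _ fun L hL => h _ (by simp [hL])

theorem avg_sum {ι : Type*} (n K : ℕ) (s : Finset ι) : ∀ F : ι → List (Finset ℕ) → ℝ,
    avg n K (fun L => ∑ i ∈ s, F i L) = ∑ i ∈ s, avg n K (F i) := by
  induction K with
  | zero => intro F; rfl
  | succ K ih =>
    intro F
    simp only [avg]
    rw [← Finset.sum_div, Finset.sum_comm]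
    congr 1
    exact Finset.sum_congr rfl fun B _ => ih _

theorem avg_mul (n K : ℕ) (c : ℝ) : ∀ F : List (Finset ℕ) → ℝ,
    avg n K (fun L => c * F L) = c * avg n K F := by
  induction K with
  | zero => intro F; rfl
  | succ K ih =>
    intro F
    simp only [avg]
    rw [← mul_div_assoc, Finset.mul_sum]
    congr 1
    exact Finset.sum_congr rfl fun B _ => ih _

theorem avg_const (n K : ℕ) (c : ℝ) : avg n K (fun _ => c) = c := by
  induction K with
  | zero => rfl
  | succ K ih =>
    simp only [avg, ih]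
    rw [Finset.sum_const, Finset.card_powerset, Finset.card_range, nsmul_eq_mul]
    push_cast
    field_simp

variable {A : Type*} [AddCommGroup A]

/-- `s` is affine in each of its `K` arguments -/
def MultiAff (K : ℕ) (s : List (Finset ℕ) → A) : Prop :=
  ∀ L1 L2 : List (Finset ℕ), L1.length + 1 + L2.length = K → ∀ B : Finset ℕ,
    s (L1 ++ B :: L2) = s (L1 ++ ∅ :: L2)
      + ∑ k ∈ B, (s (L1 ++ {k} :: L2) - s (L1 ++ ∅ :: L2))

/-- spikes -/
def spike (M : ℕ) : (List (Finset ℕ) → A) → List ℕ → A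
  | s, [] => s []
  | s, k :: ks => spike M (fun L => M • (s ({k} :: L) - s (∅ :: L))) ks

theorem MultiAff.del {K : ℕ} {s : List (Finset ℕ) → A} (h : MultiAff (K + 1) s) (M k : ℕ) :
    MultiAff K (fun L => M • (s ({k} :: L) - s (∅ :: L))) := by
  intro L1 L2 hL B
  have h1 := h ({k} :: L1) L2 (by simp; omega) B
  have h2 := h (∅ :: L1) L2 (by simp; omega) B
  simp only [List.cons_append] at h1 h2
  simp only
  rw [h1, h2]
  rw [show (∑ x ∈ B, (M • (s ({k} :: (L1 ++ {x} :: L2)) - s (∅ :: (L1 ++ {x} :: L2))) -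
      M • (s ({k} :: (L1 ++ ∅ :: L2)) - s (∅ :: (L1 ++ ∅ :: L2)))))
      = M • (∑ x ∈ B, (s ({k} :: (L1 ++ {x} :: L2)) - s ({k} :: (L1 ++ ∅ :: L2)))
        - ∑ x ∈ B, (s (∅ :: (L1 ++ {x} :: L2)) - s (∅ :: (L1 ++ ∅ :: L2)))) from ?_]
  · rw [← smul_add]
    congr 1
    abel
  · rw [← Finset.sum_sub_distrib, Finset.smul_sum]
    refine Finset.sum_congr rfl fun x _ => ?_
    rw [← smul_sub]
    congr 1
    abel

variable {Y : Type*} [MetricSpace Y] (μ : InvMean A)

/-- **multi level inequality** -/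
theorem multi (m : CNMid Y) {u : A → Y} (hu : Disp u) (n M : ℕ) (hn : 0 < n) (hM : M ^ 2 ≤ n)
    (K : ℕ) : ∀ s : List (Finset ℕ) → A, MultiAff K s → ∃ ks : List ℕ, ks.length = K ∧
      D2 μ (sh (spike M s ks) u) u ≤ 16 ^ K * avg n K (fun L => D2 μ (sh (s L) u) u) := by
  induction K with
  | zero =>
    intro s _
    exact ⟨[], rfl, by simp [spike, avg]⟩
  | succ K ih =>
    intro s hs
    have hn' : (0 : ℝ) < n := by exact_mod_cast hn
    have h1 : ∀ L : List (Finset ℕ), L.length = K →
        ∑ k ∈ Finset.range n, D2 μ (sh (M • (s ({k} :: L) - s (∅ :: L))) u) u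
        ≤ (n * 16 / 2 ^ n) * ∑ B ∈ (Finset.range n).powerset, D2 μ (sh (s (B :: L)) u) u := by
      intro L hL
      have h2 := one_level μ m (fun k => s ({k} :: L) - s (∅ :: L)) (s (∅ :: L)) hu n M hn hM
      have h3 : ∀ B : Finset ℕ, s (∅ :: L) + ∑ k ∈ B, (s ({k} :: L) - s (∅ :: L)) = s (B :: L) := by
        intro B
        exact (hs [] L (by simp; omega) B).symm
      simp only [h3] at h2
      rw [div_le_iff₀ hn'] at h2
      refine h2.trans (le_of_eq ?_)
      ring
    have h4 := avg_mono n K _ _ h1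
    rw [avg_sum, avg_mul, avg_sum] at h4
    have h5 : ∑ k ∈ Finset.range n,
        avg n K (fun L => D2 μ (sh (M • (s ({k} :: L) - s (∅ :: L))) u) u)
        ≤ ∑ k ∈ Finset.range n, 16 * avg n (K + 1) (fun L => D2 μ (sh (s L) u) u) := by
      rw [Finset.sum_const, Finset.card_range, nsmul_eq_mul]
      refine h4.trans (le_of_eq ?_)
      simp only [avg]
      ring
    obtain ⟨k, _, hk⟩ := Finset.exists_le_of_sum_le (Finset.nonempty_range_iff.2 hn.ne') h5
    obtain ⟨ks, hks, h6⟩ := ih _ (hs.del M k)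
    refine ⟨k :: ks, by simp [hks], ?_⟩
    have h7 : spike M s (k :: ks) = spike M (fun L => M • (s ({k} :: L) - s (∅ :: L))) ks := rfl
    rw [h7]
    refine h6.trans ?_
    rw [pow_succ, mul_assoc]
    exact mul_le_mul_of_nonneg_left hk (by positivity)

end Pool.Agent.Helper17.TC
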