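import Mathlib
import Pool.Agent.Helper17.TC.Word
import Pool.Agent.Helper17.TC.Multi

/-!
The group: signed permutations and the all-ones translation of `(ℤ → ℤ) → ℤ`.
-/

namespace Pool.Agent.Helper17.TC

/-- index set -/
abbrev Ix := ℤ → ℤ

/-- translation -/
def tr (v : Ix → ℤ) : Equiv.Perm (Ix → ℤ) := Equiv.addRight v

/-- multiplication by signs -/
def mu (s : Ix → ℤˣ) : Equiv.Perm (Ix → ℤ) where
  toFun φ := fun i => (s i : ℤ) * φ i
  invFun φ := fun i => (s i : ℤ) * φ i
  left_inv φ := by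
    funext i
    show (s i : ℤ) * ((s i : ℤ) * φ i) = φ i
    rw [← mul_assoc, ← Units.val_mul, Int.units_mul_self, Units.val_one, one_mul]
  right_inv φ := by
    funext i
    show (s i : ℤ) * ((s i : ℤ) * φ i) = φ i
    rw [← mul_assoc, ← Units.val_mul, Int.units_mul_self, Units.val_one, one_mul]

/-- composition with a permutation of the index set -/
def co (e : Equiv.Perm Ix) : Equiv.Perm (Ix → ℤ) where
  toFun φ := fun i => φ (e i)
  invFun φ := fun i => φ (e.symm i)
  left_inv φ := by funext i; simp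
  right_inv φ := by funext i; simp

/-- shift of the coordinate of factor `0` -/
def cI : Equiv.Perm Ix where
  toFun i := Function.update i 0 (i 0 - 1)
  invFun i := Function.update i 0 (i 0 + 1)
  left_inv i := by
    funext l
    by_cases h : l = 0
    · subst h; simp
    · simp [Function.update_of_ne h]
  right_inv i := by
    funext l
    by_cases h : l = 0
    · subst h; simp
    · simp [Function.update_of_ne h]

/-- shift of the factors -/
def pI : Equiv.Perm Ix where
  toFun i := fun l => i (l + 1)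
  invFun i := fun l => i (l - 1)
  left_inv i := by funext l; simp
  right_inv i := by funext l; simp

theorem tr_apply (v φ : Ix → ℤ) : tr v φ = φ + v := rfl

theorem tr_add (v w : Ix → ℤ) : tr (v + w) = tr v * tr w := by
  ext φ i
  simp [tr_apply, add_comm, add_left_comm]

theorem tr_zero : tr 0 = 1 := by
  ext φ i
  simp [tr_apply]

theorem tr_inv (v : Ix → ℤ) : (tr v)⁻¹ = tr (-v) := by
  rw [inv_eq_iff_mul_eq_one, ← tr_add, add_neg_cancel, tr_zero]

theorem mu_mul (s s' : Ix → ℤˣ) : mu (s * s') = mu s * mu s' := by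
  ext φ i
  simp [mu, mul_assoc]

theorem mu_one : mu 1 = 1 := by
  ext φ i
  simp [mu]

theorem co_mu (e : Equiv.Perm Ix) (s : Ix → ℤˣ) :
    co e * mu s * (co e)⁻¹ = mu (fun i => s (e i)) := by
  rw [mul_inv_eq_iff_eq_mul]
  ext φ i
  simp [co, mu]

theorem mu_tr (s : Ix → ℤˣ) (v : Ix → ℤ) :
    mu s * tr v * (mu s)⁻¹ = tr (fun i => (s i : ℤ) * v i) := by
  rw [mul_inv_eq_iff_eq_mul]
  ext φ i
  simp [tr_apply, mu, mul_add]

def gJ : Equiv.Perm (Ix → ℤ) := tr 1
def gS : Equiv.Perm (Ix → ℤ) := mu (fun i => if i 0 = 0 then -1 else 1)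
def gC : Equiv.Perm (Ix → ℤ) := co cI
def gP : Equiv.Perm (Ix → ℤ) := co pI

/-- the group -/
def GG : Subgroup (Equiv.Perm (Ix → ℤ)) := Subgroup.closure {gJ, gS, gC, gP}

def eJ : GG := ⟨gJ, Subgroup.subset_closure (by simp)⟩
def eS : GG := ⟨gS, Subgroup.subset_closure (by simp)⟩
def eC : GG := ⟨gC, Subgroup.subset_closure (by simp)⟩
def eP : GG := ⟨gP, Subgroup.subset_closure (by simp)⟩

open Classical in
/-- the generating set -/
noncomputable def SS : Finset GG := {eJ, eS, eC, eP}

theorem closure_SS : Subgroup.closure (SS : Set GG) = ⊤ := by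
  have h : (SS : Set GG) = ((↑) : GG → Equiv.Perm (Ix → ℤ)) ⁻¹' {gJ, gS, gC, gP} := by
    ext x
    simp only [SS, Finset.coe_insert, Finset.coe_singleton, Set.mem_insert_iff,
      Set.mem_singleton_iff, Set.mem_preimage, Subtype.ext_iff, eJ, eS, eC, eP]
  rw [h]
  exact Subgroup.closure_closure_coe_preimage

theorem eJ_mem : eJ ∈ SS := by simp [SS]
theorem eS_mem : eS ∈ SS := by simp [SS]
theorem eC_mem : eC ∈ SS := by simp [SS]
theorem eP_mem : eP ∈ SS := by simp [SS]

/-- sup norm bound: a word of length `N` moves the zero function to a function bounded by `N` -/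
theorem word_bound (l : List GG) : (∀ x ∈ l, x ∈ SS ∨ x⁻¹ ∈ SS) →
    ∀ i : Ix, |((l.prod : GG) : Equiv.Perm (Ix → ℤ)) 0 i| ≤ (l.length : ℤ) := by
  have key : ∀ x : GG, (x ∈ SS ∨ x⁻¹ ∈ SS) → ∀ (φ : Ix → ℤ) (N : ℤ), (∀ i, |φ i| ≤ N) →
      ∀ i, |(x : Equiv.Perm (Ix → ℤ)) φ i| ≤ N + 1 := by
    intro x hx φ N hφ i
    have hu : ∀ a : ℤˣ, |(a : ℤ)| = 1 := fun a => by
      rcases Int.units_eq_one_or a with rfl | rfl <;> simp
    rcases hx with hx | hx
    · simp only [SS, Finset.mem_insert, Finset.mem_singleton] at hx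
      rcases hx with rfl | rfl | rfl | rfl
      · show |φ i + 1| ≤ N + 1
        have := abs_add_le (φ i) 1
        have h1 := hφ i
        simp only [abs_one] at this
        linarith
      · show |_ * φ i| ≤ N + 1
        rw [abs_mul, hu, one_mul]
        linarith [hφ i]
      · show |φ (cI i)| ≤ N + 1
        linarith [hφ (cI i)]
      · show |φ (pI i)| ≤ N + 1
        linarith [hφ (pI i)]
    · simp only [SS, Finset.mem_insert, Finset.mem_singleton, inv_eq_iff_eq_inv] at hx
      rcases hx with rfl | rfl | rfl | rfl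
      · show |φ i + -1| ≤ N + 1
        have := abs_add_le (φ i) (-1)
        have h1 := hφ i
        simp only [abs_neg, abs_one] at this
        linarith
      · show |_ * φ i| ≤ N + 1
        rw [abs_mul, hu, one_mul]
        linarith [hφ i]
      · show |φ (cI.symm i)| ≤ N + 1
        linarith [hφ (cI.symm i)]
      · show |φ (pI.symm i)| ≤ N + 1
        linarith [hφ (pI.symm i)]
  induction l with
  | nil => intro _ i; simp
  | cons x l ih =>
    intro h i
    have h1 := ih (fun y hy => h y (List.mem_cons_of_mem _ hy))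
    have h2 := key x (h x List.mem_cons_self) _ _ h1 i
    rw [List.prod_cons]
    simpa using h2

theorem norm_bound (g : GG) (R : ℕ) (i : Ix) (h : (R : ℤ) ≤ |(g : Equiv.Perm (Ix → ℤ)) 0 i|) :
    R ≤ wordNorm SS g := by
  apply le_wordNorm closure_SS
  intro l hl hg
  have := word_bound l hl i
  rw [hg] at this
  exact_mod_cast h.trans this

/-- sign of a finite set at a point -/
def chiU (B : Finset ℕ) (x : ℤ) : ℤˣ := ∏ k ∈ B, if x = (k : ℤ) then -1 else 1

/-- rank one sign tensors -/
def tenU : List (Finset ℕ) → Ix → ℤˣ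
  | [], _ => 1
  | B :: L, i => chiU B (i 0) * tenU L (pI i)

theorem flip_word (k : ℕ) : ∃ g : GG,
    (g : Equiv.Perm (Ix → ℤ)) = mu (fun i => if i 0 = (k : ℤ) then -1 else 1)
      ∧ Wd SS (2 * k + 1) g := by
  induction k with
  | zero => exact ⟨eS, by simp [eS, gS], (Wd.gen eS_mem).mono (by omega)⟩
  | succ k ih =>
    obtain ⟨g, hg, hw⟩ := ih
    refine ⟨eC * g * eC⁻¹, ?_, ((Wd.gen eC_mem).conj hw).mono (by omega)⟩
    have e1 : ((eC * g * eC⁻¹ : GG) : Equiv.Perm (Ix → ℤ)) = gC * (g : Equiv.Perm (Ix → ℤ)) * gC⁻¹ :=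
      rfl
    rw [e1, hg]
    unfold gC
    rw [co_mu]
    congr 1
    funext i
    have e2 : (cI i) 0 = i 0 - 1 := by simp [cI]
    rw [e2]
    have e3 : (i 0 - 1 = (k : ℤ)) ↔ (i 0 = ((k + 1 : ℕ) : ℤ)) := by push_cast; omega
    simp only [e3]

theorem chi_word (n : ℕ) (B : Finset ℕ) : (∀ k ∈ B, k ≤ n) → ∃ g : GG,
    (g : Equiv.Perm (Ix → ℤ)) = mu (fun i => chiU B (i 0))
      ∧ Wd SS (B.card * (2 * n + 1)) g := by
  classical
  induction B using Finset.induction_on with
  | empty =>
    intro _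
    refine ⟨1, ?_, Wd.one.mono (by omega)⟩
    simp only [chiU, Finset.prod_empty]
    exact mu_one.symm
  | insert k B hk ih =>
    intro hB
    obtain ⟨g, hg, hw⟩ := ih fun j hj => hB j (Finset.mem_insert_of_mem hj)
    obtain ⟨g', hg', hw'⟩ := flip_word k
    refine ⟨g' * g, ?_, (hw'.mul hw).mono ?_⟩
    · have e1 : ((g' * g : GG) : Equiv.Perm (Ix → ℤ))
          = (g' : Equiv.Perm (Ix → ℤ)) * (g : Equiv.Perm (Ix → ℤ)) := rfl
      rw [e1, hg, hg', ← mu_mul]
      congr 1
      funext i
      simp [chiU, Finset.prod_insert hk]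
    · rw [Finset.card_insert_of_notMem hk]
      have := hB k (Finset.mem_insert_self _ _)
      nlinarith

theorem ten_word (n : ℕ) (L : List (Finset ℕ)) : (∀ B ∈ L, B ⊆ Finset.range n) → ∃ g : GG,
    (g : Equiv.Perm (Ix → ℤ)) = mu (tenU L)
      ∧ Wd SS (L.length * (n * (2 * n + 1) + 2)) g := by
  induction L with
  | nil =>
    intro _
    refine ⟨1, ?_, Wd.one.mono (by omega)⟩
    have : tenU [] = 1 := by funext i; rfl
    rw [this]
    exact mu_one.symm
  | cons B L ih =>
    intro hL
    obtain ⟨g, hg, hw⟩ := ih fun B' hB' => hL B' (List.mem_cons_of_mem _ hB')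
    have hB := hL B List.mem_cons_self
    obtain ⟨g', hg', hw'⟩ := chi_word n B fun k hk => (Finset.mem_range.1 (hB hk)).le
    have hcard : B.card ≤ n := by
      have := Finset.card_le_card hB
      rwa [Finset.card_range] at this
    refine ⟨g' * (eP * g * eP⁻¹), ?_, (hw'.mul ((Wd.gen eP_mem).conj hw)).mono ?_⟩
    · have e1 : ((g' * (eP * g * eP⁻¹) : GG) : Equiv.Perm (Ix → ℤ))
          = (g' : Equiv.Perm (Ix → ℤ)) * (gP * (g : Equiv.Perm (Ix → ℤ)) * gP⁻¹) := rfl
      rw [e1, hg, hg']
      unfold gP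
      rw [co_mu, ← mu_mul]
      congr 1
    · rw [List.length_cons]
      have : B.card * (2 * n + 1) ≤ n * (2 * n + 1) := Nat.mul_le_mul_right _ hcard
      nlinarith

/-- integer valued tensor -/
def ten (L : List (Finset ℕ)) : Ix → ℤ := fun i => (tenU L i : ℤ)

theorem tr_word (n : ℕ) (L : List (Finset ℕ)) (hL : ∀ B ∈ L, B ⊆ Finset.range n) : ∃ g : GG,
    (g : Equiv.Perm (Ix → ℤ)) = tr (ten L)
      ∧ Wd SS (2 * (L.length * (n * (2 * n + 1) + 2)) + 1) g := by
  obtain ⟨g, hg, hw⟩ := ten_word n L hL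
  refine ⟨g * eJ * g⁻¹, ?_, hw.conj (Wd.gen eJ_mem)⟩
  have e1 : ((g * eJ * g⁻¹ : GG) : Equiv.Perm (Ix → ℤ))
      = (g : Equiv.Perm (Ix → ℤ)) * gJ * (g : Equiv.Perm (Ix → ℤ))⁻¹ := rfl
  rw [e1, hg]
  unfold gJ
  rw [mu_tr]
  congr 1
  funext i
  simp [ten]

theorem tr_ten_mem (L : List (Finset ℕ)) : tr (ten L) ∈ GG := by
  have : ∃ n : ℕ, ∀ B ∈ L, B ⊆ Finset.range n := by
    induction L with
    | nil => exact ⟨0, by simp⟩
    | cons B L ih =>
      obtain ⟨n, hn⟩ := ih
      refine ⟨n + B.sup id + 1, ?_⟩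
      intro B' hB' k hk
      rw [Finset.mem_range]
      rcases List.mem_cons.1 hB' with rfl | hB'
      · have := Finset.le_sup (f := id) hk
        simp only [id] at this
        omega
      · have := Finset.mem_range.1 (hn B' hB' hk)
        omega
  obtain ⟨n, hn⟩ := this
  obtain ⟨g, hg, _⟩ := tr_word n L hn
  rw [← hg]
  exact g.2

theorem chiU_val (B : Finset ℕ) (x : ℤ) :
    ((chiU B x : ℤˣ) : ℤ) = 1 + ∑ k ∈ B, (if x = (k : ℤ) then (-2 : ℤ) else 0) := by
  classical
  by_cases h : ∃ k ∈ B, x = (k : ℤ)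
  · obtain ⟨k, hk, rfl⟩ := h
    have h1 : chiU B (k : ℤ) = -1 := by
      unfold chiU
      rw [Finset.prod_eq_single k]
      · simp
      · intro j _ hj
        rw [if_neg]
        intro h'
        exact hj (by exact_mod_cast h'.symm)
      · intro h; exact absurd hk h
    have h2 : ∑ j ∈ B, (if (k : ℤ) = (j : ℤ) then (-2 : ℤ) else 0) = -2 := by
      rw [Finset.sum_eq_single k]
      · simp
      · intro j _ hj
        rw [if_neg]
        intro h'
        exact hj (by exact_mod_cast h'.symm)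
      · intro h; exact absurd hk h
    rw [h1, h2]
    norm_num
  · have h1 : chiU B x = 1 := by
      unfold chiU
      apply Finset.prod_eq_one
      intro j hj
      rw [if_neg]
      intro hx
      exact h ⟨j, hj, hx⟩
    have h2 : ∑ j ∈ B, (if x = (j : ℤ) then (-2 : ℤ) else 0) = 0 := by
      apply Finset.sum_eq_zero
      intro j hj
      rw [if_neg]
      intro hx
      exact h ⟨j, hj, hx⟩
    rw [h1, h2]
    norm_num

theorem ten_cons (B : Finset ℕ) (L : List (Finset ℕ)) (i : Ix) :
    ten (B :: L) i = ((chiU B (i 0) : ℤˣ) : ℤ) * ten L (pI i) := by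
  simp [ten, tenU]

/-- rank one sign tensors are multi-affine -/
theorem ten_aff (L1 L2 : List (Finset ℕ)) (B : Finset ℕ) : ∀ i : Ix,
    ten (L1 ++ B :: L2) i = ten (L1 ++ ∅ :: L2) i
      + ∑ k ∈ B, (ten (L1 ++ {k} :: L2) i - ten (L1 ++ ∅ :: L2) i) := by
  induction L1 with
  | nil =>
    intro i
    simp only [List.nil_append, ten_cons, chiU_val, Finset.sum_empty, Finset.sum_singleton,
      add_zero, one_mul]
    have : ∀ k ∈ B, ((1 + if i 0 = (k : ℤ) then (-2 : ℤ) else 0) * ten L2 (pI i) - ten L2 (pI i))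
        = (if i 0 = (k : ℤ) then (-2 : ℤ) else 0) * ten L2 (pI i) := by
      intro k _; ring
    rw [Finset.sum_congr rfl this, ← Finset.sum_mul]
    ring
  | cons B' L1 ih =>
    intro i
    simp only [List.cons_append, ten_cons]
    rw [ih (pI i), mul_add, Finset.mul_sum]
    congr 1
    refine Finset.sum_congr rfl fun k _ => ?_
    ring

/-- product for spikes -/
def spv (M : ℕ) : List ℕ → Ix → ℤ
  | [], _ => 1
  | k :: ks, i => (M : ℤ) * (if i 0 = (k : ℤ) then -2 else 0) * spv M ks (pI i)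

theorem spike_val (M : ℕ) (ks : List ℕ) : ∀ (c : Ix → ℤ) (e : Ix → Ix),
    spike M (fun L => (fun i => c i * ten L (e i) : Ix → ℤ)) ks
      = fun i => c i * spv M ks (e i) := by
  induction ks with
  | nil =>
    intro c e
    funext i
    simp [spike, spv, ten, tenU]
  | cons k ks ih =>
    intro c e
    have h := ih (fun i => c i * ((M : ℤ) * (if (e i) 0 = (k : ℤ) then -2 else 0)))
      (fun i => pI (e i))
    have e1 : (fun L : List (Finset ℕ) => M • ((fun i => c i * ten ({k} :: L) (e i) : Ix → ℤ)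
        - (fun i => c i * ten (∅ :: L) (e i))))
        = fun L => (fun i => c i * ((M : ℤ) * (if (e i) 0 = (k : ℤ) then -2 else 0))
            * ten L (pI (e i)) : Ix → ℤ) := by
      funext L i
      simp only [Pi.smul_apply, Pi.sub_apply, ten_cons, chiU_val, Finset.sum_singleton,
        Finset.sum_empty, nsmul_eq_mul]
      ring
    have e2 : spike M (fun L => (fun i => c i * ten L (e i) : Ix → ℤ)) (k :: ks)
        = spike M (fun L : List (Finset ℕ) => M • ((fun i => c i * ten ({k} :: L) (e i) : Ix → ℤ)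
          - (fun i => c i * ten (∅ :: L) (e i)))) ks := rfl
    rw [e2, e1, h]
    funext i
    simp only [spv]
    ring

theorem spv_congr (M : ℕ) (ks : List ℕ) : ∀ i j : Ix, (∀ l : ℤ, 0 ≤ l → i l = j l) →
    spv M ks i = spv M ks j := by
  induction ks with
  | nil => intro i j _; rfl
  | cons k ks ih =>
    intro i j h
    simp only [spv]
    rw [h 0 le_rfl, ih (pI i) (pI j)]
    intro l hl
    exact h (l + 1) (by omega)

theorem exists_spv (M : ℕ) (ks : List ℕ) : ∃ i : Ix, spv M ks i = (-2 * (M : ℤ)) ^ ks.length := by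
  induction ks with
  | nil => exact ⟨0, by simp [spv]⟩
  | cons k ks ih =>
    obtain ⟨j, hj⟩ := ih
    refine ⟨fun l => if l = 0 then (k : ℤ) else j (l - 1), ?_⟩
    simp only [spv, if_true, List.length_cons]
    rw [spv_congr M ks (pI fun l => if l = 0 then (k : ℤ) else j (l - 1)) j, hj]
    · ring
    · intro l hl
      show (if l + 1 = 0 then (k : ℤ) else j (l + 1 - 1)) = j l
      rw [if_neg (by omega)]
      congr 1
      ring

theorem spike_map {A A' : Type*} [AddCommGroup A] [AddCommGroup A'] (F : A →+ A') (M : ℕ)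
    (ks : List ℕ) : ∀ s : List (Finset ℕ) → A,
    F (spike M s ks) = spike M (fun L => F (s L)) ks := by
  induction ks with
  | nil => intro s; rfl
  | cons k ks ih =>
    intro s
    have e1 : F (spike M s (k :: ks))
        = F (spike M (fun L => M • (s ({k} :: L) - s (∅ :: L))) ks) := rfl
    rw [e1, ih]
    have e2 : spike M (fun L => F (s L)) (k :: ks)
        = spike M (fun L => M • (F (s ({k} :: L)) - F (s (∅ :: L)))) ks := rfl
    rw [e2]
    congr 1
    funext L
    rw [map_nsmul, map_sub]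

end Pool.Agent.Helper17.TC
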