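import Mathlib
import Pool.Agent.Helper17.TC.Cat
import Pool.Agent.Helper17.TC.Grp

/-!
Assembly.
-/

namespace Pool.Agent.Helper17.TC

theorem avg_mono2 (n K : ℕ) : ∀ F G : List (Finset ℕ) → ℝ,
    (∀ L, L.length = K → (∀ B ∈ L, B ⊆ Finset.range n) → F L ≤ G L) → avg n K F ≤ avg n K G := by
  induction K with
  | zero => intro F G h; exact h [] rfl (by simp)
  | succ K ih =>
    intro F G h
    simp only [avg]
    apply div_le_div_of_nonneg_right _ (by positivity)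
    refine Finset.sum_le_sum fun B hB => ih _ _ fun L hL hL' => h _ (by simp [hL]) ?_
    intro B' hB'
    rcases List.mem_cons.1 hB' with rfl | hB'
    · exact Finset.mem_powerset.1 hB
    · exact hL' B' hB'

/-- translations in the group -/
def WW : AddSubgroup (Ix → ℤ) where
  carrier := {v | tr v ∈ GG}
  zero_mem' := by
    show tr 0 ∈ GG
    rw [tr_zero]
    exact GG.one_mem
  add_mem' := by
    intro a b ha hb
    show tr (a + b) ∈ GG
    rw [tr_add]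
    exact GG.mul_mem ha hb
  neg_mem' := by
    intro a ha
    show tr (-a) ∈ GG
    rw [← tr_inv]
    exact GG.inv_mem ha

def tau (v : WW) : GG := ⟨tr v, v.2⟩

theorem tau_add (v w : WW) : tau (v + w) = tau v * tau w := by
  apply Subtype.ext
  exact tr_add _ _

variable {Y : Type*} [MetricSpace Y]

theorem lip (f : GG → Y) (P : ℝ) (hP : ∀ (x a : GG), (a ∈ SS ∨ a⁻¹ ∈ SS) →
    dist (f x) (f (x * a)) ≤ P) (l : List GG) (hl : ∀ x ∈ l, x ∈ SS ∨ x⁻¹ ∈ SS) :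
    ∀ x : GG, dist (f x) (f (x * l.prod)) ≤ l.length * P := by
  induction l with
  | nil => intro x; simp
  | cons a l ih =>
    intro x
    have h1 := hP x a (hl a List.mem_cons_self)
    have h2 := ih (fun y hy => hl y (List.mem_cons_of_mem _ hy)) (x * a)
    rw [List.prod_cons, ← mul_assoc, List.length_cons]
    calc dist (f x) (f (x * a * l.prod)) ≤ dist (f x) (f (x * a))
          + dist (f (x * a)) (f (x * a * l.prod)) := dist_triangle _ _ _
      _ ≤ P + l.length * P := add_le_add h1 h2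
      _ = ((l.length + 1 : ℕ) : ℝ) * P := by push_cast; ring

theorem lip_wd (f : GG → Y) (P : ℝ) (hP0 : 0 ≤ P) (hP : ∀ (x a : GG), (a ∈ SS ∨ a⁻¹ ∈ SS) →
    dist (f x) (f (x * a)) ≤ P) {N : ℕ} {g : GG} (hg : Wd SS N g) (x : GG) :
    dist (f x) (f (x * g)) ≤ N * P := by
  obtain ⟨l, h1, h2, h3⟩ := hg
  have := lip f P hP l h2 x
  rw [h3] at this
  refine this.trans (mul_le_mul_of_nonneg_right ?_ hP0)
  exact_mod_cast h1

/-- the main inequality -/
theorem core (h0 : IsCAT0 Y) (f : GG → Y) (rm rp : ℝ → ℝ)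
    (hm : MonotoneOn rm (Set.Ici 0)) (hp : MonotoneOn rp (Set.Ici 0))
    (hf : ∀ g h : GG, rm (wordNorm SS (g⁻¹ * h) : ℝ) ≤ dist (f g) (f h) ∧
      dist (f g) (f h) ≤ rp (wordNorm SS (g⁻¹ * h) : ℝ)) (K : ℕ) :
    rm ((2 : ℝ) ^ (K ^ 2 + K)) ≤ rp 1 * (4 ^ K * (2 * (K * (4 ^ K * (2 * 4 ^ K + 1) + 2)) + 1 : ℕ)) := by
  obtain ⟨m⟩ := exists_cnMid h0
  set μ := invMean WW
  have hP0 : 0 ≤ rp 1 := by
    have h1 := (hf 1 1).2
    have h2 : rp (wordNorm SS ((1 : GG)⁻¹ * 1) : ℝ) ≤ rp 1 := by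
      apply hp
      · exact Set.mem_Ici.2 (Nat.cast_nonneg _)
      · exact Set.mem_Ici.2 zero_le_one
      · have : wordNorm SS ((1 : GG)⁻¹ * 1) ≤ 1 := by
          rw [inv_one, one_mul]
          exact (Wd.one.mono (by omega) : Wd SS 1 (1 : GG)).norm_le
        exact_mod_cast this
    exact dist_nonneg.trans (h1.trans h2)
  have hP : ∀ (x a : GG), (a ∈ SS ∨ a⁻¹ ∈ SS) → dist (f x) (f (x * a)) ≤ rp 1 := by
    intro x a ha
    refine (hf x (x * a)).2.trans ?_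
    apply hp
    · exact Set.mem_Ici.2 (Nat.cast_nonneg _)
    · exact Set.mem_Ici.2 zero_le_one
    · rw [inv_mul_cancel_left]
      have hw : Wd SS 1 a := ⟨[a], by simp, by simpa using ha, by simp⟩
      exact_mod_cast hw.norm_le
  set u : WW → Y := fun v => f (tau v) with hu
  have hD : Disp u := by
    intro h
    obtain ⟨l, h2, h3⟩ := exists_word closure_SS (tau h)
    refine ⟨l.length * rp 1, fun v => ?_⟩
    have := lip f (rp 1) hP l h2 (tau v)
    rw [h3] at this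
    rw [dist_comm]
    simpa [sh, hu, tau_add] using this
  set s : List (Finset ℕ) → WW := fun L => ⟨ten L, tr_ten_mem L⟩ with hs
  have haff : MultiAff K s := by
    intro L1 L2 _ B
    apply Subtype.ext
    funext i
    have := ten_aff L1 L2 B i
    simpa [hs, AddSubgroup.coe_add, Finset.sum_apply] using this
  have hM : (2 ^ K) ^ 2 ≤ 4 ^ K := by
    rw [← pow_mul, mul_comm, pow_mul]
    norm_num
  obtain ⟨ks, hks, hmul⟩ := multi μ m hD (4 ^ K) (2 ^ K) (by positivity) hM K s haff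
  set NN : ℕ := 2 * (K * (4 ^ K * (2 * 4 ^ K + 1) + 2)) + 1 with hNN
  -- upper bound
  have hup : avg (4 ^ K) K (fun L => D2 μ (sh (s L) u) u) ≤ ((NN : ℝ) * rp 1) ^ 2 := by
    have h1 := avg_mono2 (4 ^ K) K (fun L => D2 μ (sh (s L) u) u)
      (fun _ => ((NN : ℝ) * rp 1) ^ 2) (by
        intro L hL hB
        obtain ⟨g, hg, hw⟩ := tr_word (4 ^ K) L hB
        rw [hL] at hw
        have hg' : g = tau (s L) := Subtype.ext hg
        have h3 : ∀ v : WW, dist (sh (s L) u v) (u v) ^ 2 ≤ ((NN : ℝ) * rp 1) ^ 2 := by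
          intro v
          apply pow_le_pow_left₀ dist_nonneg
          rw [dist_comm]
          have := lip_wd f (rp 1) hP0 hP hw (tau v)
          rw [hg', ← tau_add] at this
          exact this
        have h4 := μ.mono _ _ ((hD (s L)).bd) (bd_const (((NN : ℝ) * rp 1) ^ 2)) h3
        rw [μ.const] at h4
        exact h4)
    rwa [avg_const] at h1
  -- lower bound
  set z : WW := spike (2 ^ K) s ks with hz
  have hzv : (z : Ix → ℤ) = fun i => spv (2 ^ K) ks i := by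
    have h1 := spike_map WW.subtype (2 ^ K) ks s
    have h2 := spike_val (2 ^ K) ks (fun _ => 1) id
    have h3 : (fun L : List (Finset ℕ) => WW.subtype (s L))
        = fun L => (fun i => (1 : ℤ) * ten L (id i) : Ix → ℤ) := by
      funext L i
      simp [hs]
    rw [h3, h2] at h1
    simpa using h1
  have hR : 2 ^ (K ^ 2 + K) ≤ wordNorm SS (tau z) := by
    obtain ⟨i, hi⟩ := exists_spv (2 ^ K) ks
    apply norm_bound _ _ i
    have h1 : ((tau z : GG) : Equiv.Perm (Ix → ℤ)) 0 i = (z : Ix → ℤ) i := by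
      show (0 : Ix → ℤ) i + (z : Ix → ℤ) i = _
      simp
    rw [h1, hzv]
    simp only [hi]
    rw [abs_pow, hks, abs_mul]
    have h2 : |(-2 : ℤ)| * |((2 ^ K : ℕ) : ℤ)| = 2 ^ (K + 1) := by
      rw [abs_of_nonneg (by positivity : (0 : ℤ) ≤ ((2 ^ K : ℕ) : ℤ))]
      push_cast
      rw [pow_succ]
      norm_num
      ring
    rw [h2, ← pow_mul]
    push_cast
    apply le_of_eq
    congr 1
    ring
  have hlow : ∀ v : WW, rm ((2 : ℝ) ^ (K ^ 2 + K)) ≤ dist (sh z u v) (u v) := by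
    intro v
    have h1 := (hf (tau v) (tau (v + z))).1
    rw [tau_add, inv_mul_cancel_left] at h1
    rw [dist_comm]
    show _ ≤ dist (f (tau v)) (f (tau (v + z)))
    rw [tau_add]
    refine le_trans ?_ h1
    apply hm
    · exact Set.mem_Ici.2 (by positivity)
    · exact Set.mem_Ici.2 (Nat.cast_nonneg _)
    · exact_mod_cast hR
  by_cases hneg : rm ((2 : ℝ) ^ (K ^ 2 + K)) ≤ 0
  · exact hneg.trans (by positivity)
  · push Not at hneg
    have h1 : rm ((2 : ℝ) ^ (K ^ 2 + K)) ^ 2 ≤ D2 μ (sh z u) u := by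
      have h2 := μ.mono _ _ (bd_const (rm ((2 : ℝ) ^ (K ^ 2 + K)) ^ 2)) ((hD z).bd)
        (fun v => pow_le_pow_left₀ hneg.le (hlow v) 2)
      rw [μ.const] at h2
      exact h2
    have h3 : rm ((2 : ℝ) ^ (K ^ 2 + K)) ^ 2 ≤ (rp 1 * (4 ^ K * (NN : ℝ))) ^ 2 := by
      refine h1.trans (hmul.trans ?_)
      calc (16 : ℝ) ^ K * avg (4 ^ K) K (fun L => D2 μ (sh (s L) u) u)
          ≤ 16 ^ K * ((NN : ℝ) * rp 1) ^ 2 := mul_le_mul_of_nonneg_left hup (by positivity)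
        _ = (rp 1 * (4 ^ K * (NN : ℝ))) ^ 2 := by
            have : (16 : ℝ) ^ K = (4 ^ K) ^ 2 := by
              rw [← pow_mul, mul_comm, pow_mul]; norm_num
            rw [this]; ring
    exact (abs_le_of_sq_le_sq' h3 (by positivity)).2

theorem num1 (K : ℕ) :
    ((4 : ℝ) ^ K * (2 * (K * (4 ^ K * (2 * 4 ^ K + 1) + 2)) + 1 : ℕ)) ≤ 2 ^ (4 + 7 * K) := by
  have hK : (K : ℝ) ≤ 2 ^ K := by exact_mod_cast Nat.lt_two_pow_self.le
  set x : ℝ := 2 ^ K with hx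
  have hx1 : 1 ≤ x := one_le_pow₀ (by norm_num)
  have h4 : (4 : ℝ) ^ K = x ^ 2 := by
    rw [hx, ← pow_mul, mul_comm, pow_mul]; norm_num
  have h7 : (2 : ℝ) ^ (4 + 7 * K) = 16 * x ^ 7 := by
    rw [pow_add, hx, ← pow_mul, mul_comm K 7]; norm_num
  push_cast
  rw [h4, h7]
  have h5 : 2 * ((K : ℝ) * (x ^ 2 * (2 * x ^ 2 + 1) + 2)) + 1 ≤ 11 * x ^ 5 := by
    have h6 : x ^ 2 * (2 * x ^ 2 + 1) + 2 ≤ 5 * x ^ 4 := by nlinarith [pow_le_pow_left₀ zero_le_one hx1 2, sq_nonneg (x ^ 2 - 1)]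
    have h8 : (K : ℝ) * (x ^ 2 * (2 * x ^ 2 + 1) + 2) ≤ x * (5 * x ^ 4) :=
      mul_le_mul hK h6 (by positivity) (by positivity)
    have h9 : (1 : ℝ) ≤ x ^ 5 := one_le_pow₀ hx1
    nlinarith
  calc x ^ 2 * (2 * ((K : ℝ) * (x ^ 2 * (2 * x ^ 2 + 1) + 2)) + 1)
      ≤ x ^ 2 * (11 * x ^ 5) := mul_le_mul_of_nonneg_left h5 (by positivity)
    _ ≤ 16 * x ^ 7 := by
      have : 0 ≤ x ^ 7 := by positivity
      nlinarith

theorem num2 (t : ℝ) (ht : 2 ≤ t) : ∃ K : ℕ, t ≤ 2 ^ (K ^ 2 + K) ∧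
    (2 : ℝ) ^ (4 + 7 * K) ≤ Real.exp (18 * Real.sqrt (Real.log t)) := by
  have hl2 : 0 < Real.log 2 := Real.log_pos (by norm_num)
  have hl2' : Real.log 2 ≤ 1 := by linarith [Real.log_two_lt_d9]
  have hlt : Real.log 2 ≤ Real.log t := Real.log_le_log (by norm_num) ht
  have ht0 : 0 < t := by linarith
  set L : ℝ := Real.log t / Real.log 2 with hL
  have hL1 : 1 ≤ L := by rw [hL, le_div_iff₀ hl2]; linarith
  set q : ℝ := Real.sqrt L with hq
  have hq2 : q ^ 2 = L := Real.sq_sqrt (by linarith)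
  have hq0 : 0 ≤ q := Real.sqrt_nonneg _
  refine ⟨⌈q⌉₊, ?_, ?_⟩
  · have h1 : q ≤ (⌈q⌉₊ : ℝ) := Nat.le_ceil q
    have h2 : L ≤ ((⌈q⌉₊ ^ 2 + ⌈q⌉₊ : ℕ) : ℝ) := by
      push_cast
      nlinarith [pow_le_pow_left₀ hq0 h1 2]
    have h3 : t = (2 : ℝ) ^ L := by
      rw [Real.rpow_def_of_pos (by norm_num : (0 : ℝ) < 2), hL, mul_div_cancel₀ _ hl2.ne',
        Real.exp_log ht0]
    calc t = (2 : ℝ) ^ L := h3
      _ ≤ (2 : ℝ) ^ ((⌈q⌉₊ ^ 2 + ⌈q⌉₊ : ℕ) : ℝ) :=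
        Real.rpow_le_rpow_of_exponent_le (by norm_num) h2
      _ = 2 ^ (⌈q⌉₊ ^ 2 + ⌈q⌉₊) := Real.rpow_natCast _ _
  · have h1 : (⌈q⌉₊ : ℝ) < q + 1 := Nat.ceil_lt_add_one hq0
    have h2 : (2 : ℝ) ^ (4 + 7 * ⌈q⌉₊) = Real.exp (((4 + 7 * ⌈q⌉₊ : ℕ) : ℝ) * Real.log 2) := by
      rw [← Real.rpow_natCast, Real.rpow_def_of_pos (by norm_num : (0 : ℝ) < 2),
        mul_comm (Real.log 2)]
    rw [h2, Real.exp_le_exp]
    push_cast
    set r := Real.sqrt (Real.log t) with hr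
    set c := Real.sqrt (Real.log 2) with hc
    have hc2 : c ^ 2 = Real.log 2 := Real.sq_sqrt hl2.le
    have hc0 : 0 < c := Real.sqrt_pos.2 hl2
    have hc1 : c ≤ 1 := by
      rw [hc]
      calc Real.sqrt (Real.log 2) ≤ Real.sqrt 1 := Real.sqrt_le_sqrt hl2'
        _ = 1 := Real.sqrt_one
    have hcr : c ≤ r := Real.sqrt_le_sqrt hlt
    have hqc : q = r / c := by
      rw [hq, hL, hr, hc, Real.sqrt_div (by linarith)]
    have h3 : q * Real.log 2 = r * c := by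
      rw [hqc, ← hc2]
      field_simp
    have hr0 : 0 ≤ r := Real.sqrt_nonneg _
    have h4 : Real.log 2 ≤ r := by
      rw [← hc2]; nlinarith
    nlinarith

theorem final (h0 : IsCAT0 Y) (f : GG → Y) (rm rp : ℝ → ℝ)
    (hm : MonotoneOn rm (Set.Ici 0)) (hp : MonotoneOn rp (Set.Ici 0))
    (hf : ∀ g h : GG, rm (wordNorm SS (g⁻¹ * h) : ℝ) ≤ dist (f g) (f h) ∧
      dist (f g) (f h) ≤ rp (wordNorm SS (g⁻¹ * h) : ℝ)) (t : ℝ) (ht : 2 ≤ t) :
    rm t ≤ rp 1 * Real.exp (18 * Real.sqrt (Real.log t)) := by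
  obtain ⟨K, h1, h2⟩ := num2 t ht
  have h3 := core h0 f rm rp hm hp hf K
  have h4 := num1 K
  have hP0 : 0 ≤ rp 1 := by
    have h1 := (hf 1 1).2
    have h2 : rp (wordNorm SS ((1 : GG)⁻¹ * 1) : ℝ) ≤ rp 1 := by
      apply hp
      · exact Set.mem_Ici.2 (Nat.cast_nonneg _)
      · exact Set.mem_Ici.2 zero_le_one
      · have : wordNorm SS ((1 : GG)⁻¹ * 1) ≤ 1 := by
          rw [inv_one, one_mul]
          exact (Wd.one.mono (by omega) : Wd SS 1 (1 : GG)).norm_le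
        exact_mod_cast this
    exact dist_nonneg.trans (h1.trans h2)
  calc rm t ≤ rm ((2 : ℝ) ^ (K ^ 2 + K)) :=
        hm (Set.mem_Ici.2 (by linarith)) (Set.mem_Ici.2 (by positivity)) h1
    _ ≤ _ := h3
    _ ≤ rp 1 * Real.exp (18 * Real.sqrt (Real.log t)) :=
        mul_le_mul_of_nonneg_left (h4.trans h2) hP0

end Pool.Agent.Helper17.TC
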